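import Pool.Agent.K4H23.UI.Core

/-!
# The conjecture for points without algebraic coordinates, and the reduction to algebraic points
-/

set_option autoImplicit false

namespace Pool.Agent.K4H23.UI

open Set TopologicalSpace ShimuraWorld

/-- The closure of a subset of a noetherian space is the union of finitely many irreducible closed
sets in each of which the subset is dense. -/
theorem exists_dense_components {α : Type} [TopologicalSpace α] [NoetherianSpace α] (E : Set α) :
    ∃ F : Set (Set α), F.Finite ∧ (∀ C ∈ F, IsSub C ∧ C ⊆ closure (E ∩ C) ∧ C ⊆ closure E) ∧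
      closure E = ⋃₀ F := by
  classical
  obtain ⟨S, hS, hSc, hSi, hE⟩ :=
    NoetherianSpace.exists_finite_set_isClosed_irreducible (isClosed_closure (s := E))
  have hdense : ∀ t ∈ S, ∃ u ∈ S, t ⊆ closure (E ∩ u) := by
    intro t ht
    have h1 := (isIrreducible_iff_sUnion_isClosed.mp (hSi t ht))
      ((hS.toFinset).image (fun u => closure (E ∩ u))) ?_ ?_
    · obtain ⟨z, hz, htz⟩ := h1
      simp only [Finset.mem_image, Finite.mem_toFinset] at hz
      obtain ⟨u, hu, rfl⟩ := hz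
      exact ⟨u, hu, htz⟩
    · intro z hz
      simp only [Finset.mem_image, Finite.mem_toFinset] at hz
      obtain ⟨D, hD, rfl⟩ := hz
      exact isClosed_closure
    · have h2 : E ⊆ ⋃ u ∈ S, E ∩ u := by
        intro x hx
        have h3 : x ∈ ⋃₀ S := by rw [← hE]; exact subset_closure hx
        obtain ⟨u, hu, hxu⟩ := h3
        exact mem_biUnion hu ⟨hx, hxu⟩
      have h4 : t ⊆ closure E := by rw [hE]; exact subset_sUnion_of_mem ht
      refine h4.trans ((closure_mono h2).trans ?_)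
      rw [hS.closure_biUnion]
      refine iUnion₂_subset fun u hu => ?_
      refine subset_sUnion_of_mem ?_
      simp only [Finset.coe_image, Finite.coe_toFinset]
      exact ⟨u, hu, rfl⟩
  refine ⟨{t | t ∈ S ∧ t ⊆ closure (E ∩ t)}, hS.subset fun t ht => ht.1, ?_, ?_⟩
  · rintro C ⟨hC, hCE⟩
    exact ⟨⟨hSc C hC, hSi C hC⟩, hCE, by rw [hE]; exact subset_sUnion_of_mem hC⟩
  · refine Subset.antisymm ?_ (sUnion_subset fun t ht => by rw [hE]; exact subset_sUnion_of_mem ht.1)
    intro x hx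
    rw [hE] at hx
    obtain ⟨t, ht, hxt⟩ := hx
    obtain ⟨u, htu, hu⟩ := hS.exists_le_maximal ht
    refine ⟨u, ⟨hu.1, ?_⟩, htu hxt⟩
    obtain ⟨v, hv, huv⟩ := hdense u hu.1
    have h1 : u ⊆ v := huv.trans (closure_minimal inter_subset_right (hSc v hv))
    have h2 : v ⊆ u := hu.2 hv h1
    rw [Subset.antisymm h2 h1] at huv
    exact huv

variable {G : ShimuraWorld}

theorem q1_of_dense (hG : IsGeometry G) {P : G.Obj} (p : G.Pt P) {X : G.Obj} (V : Set (G.Pt X))
    (h : ∀ C : Set (G.Pt X), IsSub C → C ⊆ closure (Orb p X ∩ C) → G.WeaklySpecial C) :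
    Q1 p V := by
  have := hG.noetherian X
  obtain ⟨F, hF, hFC, hE⟩ := exists_dense_components (Orb p X ∩ V)
  refine ⟨F, hF, fun C hC => h C (hFC C hC).1 ?_, hE⟩
  refine (hFC C hC).2.1.trans (closure_mono ?_)
  rintro x ⟨⟨h1, -⟩, h3⟩
  exact ⟨h1, h3⟩

/-! ### special points -/

theorem special_coordinate (hG : IsGeometry G) (B Y : G.Obj) (D : Set (G.Pt (G.prod B Y)))
    (hD : G.Special D)
    (hfin : ∀ (y : G.Pt Y) (R : Set (G.Pt (G.prod B Y))), IsSub R → R ⊆ D ∩ G.snd ⁻¹' {y} →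
        G.dim R = 0) (b : G.Pt B) (y : G.Pt Y) (hby : G.pair b y ∈ D)
    (hy : G.Special ({y} : Set (G.Pt Y))) : G.Special ({b} : Set (G.Pt B)) := by
  have hcl : IsClosed (D ∩ G.snd ⁻¹' {y}) := (hG.ws_isSub _ (hG.sp_ws _ hD)).1.inter
    ((isSub_point hG y).1.preimage (hG.mor_continuous _ hG.mor_snd))
  obtain ⟨C, hC, hbC⟩ := exists_comp hG hcl (isIrreducible_singleton (x := G.pair b y))
    (by rintro p rfl; exact ⟨hby, hG.snd_pair _ _⟩)
  have hCs := hG.sp_comp _ hG.mor_snd D {y} C hD hy hC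
  have hC0 := hfin y C hC.1 hC.2.1
  have h1 : ({G.pair b y} : Set (G.Pt (G.prod B Y))) = C :=
    hG.eq_of_dim_le _ _ (isSub_point hG _) hC.1 hbC (by omega)
  have h2 := hG.sp_image _ hG.mor_fst C hCs
  rw [← h1, image_singleton, hG.fst_pair] at h2
  exact h2

theorem hodgeGeneric_of_noAlg (hG : IsGeometry G) {P : G.Obj} {p : G.Pt P}
    (hp : NoAlgebraicCoordinate p) : HodgeGeneric p := by
  intro D hD hpD
  refine hp D (hG.sp_ws _ hD) (qcl_subset (hG.sp_overQbar _ hD) ?_)
  rintro x rfl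
  exact hpD

/-- The conjecture for points without algebraic coordinates. -/
theorem q1_of_noAlg (hG : IsGeometry G) (hAO : AndreOort G) (hDR : DawRen G) {P : G.Obj}
    (p : G.Pt P) (hp : NoAlgebraicCoordinate p) {X : G.Obj} (V : Set (G.Pt X)) : Q1 p V := by
  refine q1_of_dense hG p V fun C hC hCE => ?_
  refine core hG hDR (fun X => {x | G.Special {x}}) ?_ ?_ p hp hC inter_subset_right hCE ?_
  · intro X B hB hBN
    exact hG.sp_ws _ (hAO X B hB hBN)
  · intro B Y D hD hfin b y hby hy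
    exact special_coordinate hG B Y D hD hfin b y hby hy
  · rintro x ⟨⟨Z, hZ, hxZ, hZd⟩, -⟩
    refine ⟨Z, hG.sp_ws _ hZ, qcl_subset (hG.sp_overQbar _ hZ) (by rintro y rfl; exact hxZ), hZd, ?_⟩
    obtain ⟨z, hz, hzs⟩ := hG.sp_point Z hZ
    exact ⟨z, hz, hzs⟩

/-! ### the relative version -/

theorem fst_surjective (hG : IsGeometry G) {X Y : G.Obj} (y : G.Pt Y) (x : G.Pt X) :
    ∃ p : G.Pt (G.prod X Y), G.fst p = x := ⟨G.pair x y, hG.fst_pair _ _⟩

theorem hodgeGeneric_fst (hG : IsGeometry G) {A T : G.Obj} {a : G.Pt A} {s : G.Pt T}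
    (h : HodgeGeneric (G.pair a s)) : HodgeGeneric a := by
  intro D hD haD
  have hcl : IsClosed ((univ : Set (G.Pt (G.prod A T))) ∩ G.fst ⁻¹' D) := isClosed_univ.inter
    ((hG.ws_isSub _ (hG.sp_ws _ hD)).1.preimage (hG.mor_continuous _ hG.mor_fst))
  obtain ⟨C, hC, hbC⟩ := exists_comp hG hcl (isIrreducible_singleton (x := G.pair a s))
    (by rintro p rfl; exact ⟨mem_univ _, by rw [mem_preimage, hG.fst_pair]; exact haD⟩)
  have hCs := hG.sp_comp _ hG.mor_fst univ D C (hG.sp_univ _) hD hC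
  have hCu := h C hCs (hbC rfl)
  ext a'
  refine ⟨fun _ => mem_univ _, fun _ => ?_⟩
  have h1 : G.pair a' s ∈ C := by rw [hCu]; exact mem_univ _
  have h2 := (hC.2.1 h1).2
  rwa [mem_preimage, hG.fst_pair] at h2

theorem snd_image_univ (hG : IsGeometry G) {X A : G.Obj} {a : G.Pt A} (ha : HodgeGeneric a)
    {Z : Set (G.Pt (G.prod X A))} (hZ : G.Special Z) {x : G.Pt X} (hx : G.pair x a ∈ Z) :
    (G.snd '' Z : Set (G.Pt A)) = univ :=
  ha _ (hG.sp_image _ hG.mor_snd Z hZ) ⟨_, hx, hG.snd_pair _ _⟩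

/-- The points of `Σ(a)` are algebraic if `a` is algebraic. -/
theorem isAlg_of_mem_orb (hG : IsGeometry G) {A X : G.Obj} {a : G.Pt A} (ha : HodgeGeneric a)
    (halg : IsAlg a) {x : G.Pt X} (hx : x ∈ Orb a X) : IsAlg x := by
  obtain ⟨Z, hZ, hxZ, hZd⟩ := hx
  have hP : IsSub (qcl ({G.pair x a} : Set (G.Pt (G.prod X A)))) :=
    isSub_qcl hG isIrreducible_singleton
  have hsub : qcl ({G.pair x a} : Set (G.Pt (G.prod X A))) ⊆ Z ∩ G.snd ⁻¹' {a} := by
    refine subset_inter (qcl_subset (hG.sp_overQbar _ hZ) (by rintro y rfl; exact hxZ)) ?_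
    refine qcl_subset (hG.overQbar_preimage _ hG.mor_snd _ halg) ?_
    rintro y rfl
    exact hG.snd_pair _ _
  have h1 := dim_fiber_le hG hG.mor_snd (hG.sp_ws _ hZ) a hP hsub
  rw [snd_image_univ hG ha hZ hxZ] at h1
  have h2 : ({G.pair x a} : Set (G.Pt (G.prod X A))) = qcl {G.pair x a} :=
    hG.eq_of_dim_le _ _ (isSub_point hG _) hP (subset_qcl _) (by omega)
  have h3 : G.OverQbar ({G.pair x a} : Set (G.Pt (G.prod X A))) := by
    rw [h2]; exact overQbar_qcl hG _
  have h4 := hG.overQbar_image _ hG.mor_fst _ h3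
  rw [image_singleton, hG.fst_pair, (isSub_point hG x).1.closure_eq] at h4
  exact h4

/-- If `D ⊆ B × Y` is special and finite over `Y`, `(b, y) ∈ D` and `y ∈ Σ(a)` then `b ∈ Σ(a)`. -/
theorem orb_coordinate (hG : IsGeometry G) {A : G.Obj} (a : G.Pt A) (B Y : G.Obj)
    (D : Set (G.Pt (G.prod B Y))) (hD : G.Special D)
    (hfin : ∀ (y : G.Pt Y) (R : Set (G.Pt (G.prod B Y))), IsSub R → R ⊆ D ∩ G.snd ⁻¹' {y} →
        G.dim R = 0) (b : G.Pt B) (y : G.Pt Y) (hby : G.pair b y ∈ D)
    (hy : y ∈ Orb a Y) : b ∈ Orb a B := by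
  obtain ⟨Z, hZ, hyZ, hZd⟩ := hy
  set u : G.Pt (G.prod B (G.prod Y A)) → G.Pt (G.prod B Y) :=
    fun q => G.pair (G.fst q) (G.fst (G.snd q)) with hu
  have hum : G.IsMor u := hG.mor_pair _ _ hG.mor_fst (hG.mor_comp _ _ hG.mor_snd hG.mor_fst)
  set w : G.Pt (G.prod B (G.prod Y A)) → G.Pt (G.prod B A) :=
    fun q => G.pair (G.fst q) (G.snd (G.snd q)) with hw
  have hwm : G.IsMor w := hG.mor_pair _ _ hG.mor_fst (hG.mor_comp _ _ hG.mor_snd hG.mor_snd)
  set q0 : G.Pt (G.prod B (G.prod Y A)) := G.pair b (G.pair y a) with hq0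
  have huq : u q0 = G.pair b y := by simp [hu, hq0, hG.fst_pair, hG.snd_pair]
  have hwq : w q0 = G.pair b a := by simp [hw, hq0, hG.fst_pair, hG.snd_pair]
  have hDcl := (hG.ws_isSub _ (hG.sp_ws _ hD)).1
  have hZcl := (hG.ws_isSub _ (hG.sp_ws _ hZ)).1
  obtain ⟨C1, hC1, hq1⟩ := exists_comp hG
    (F := (univ : Set (G.Pt (G.prod B (G.prod Y A)))) ∩ u ⁻¹' D)
    (isClosed_univ.inter (hDcl.preimage (hG.mor_continuous _ hum)))
    (isIrreducible_singleton (x := q0))
    (by rintro p rfl; exact ⟨mem_univ _, by rw [mem_preimage, huq]; exact hby⟩)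
  have hC1s := hG.sp_comp u hum univ D C1 (hG.sp_univ _) hD hC1
  obtain ⟨C2, hC2, hq2⟩ := exists_comp hG (F := C1 ∩ G.snd ⁻¹' Z)
    (hC1.1.1.inter (hZcl.preimage (hG.mor_continuous _ hG.mor_snd)))
    (isIrreducible_singleton (x := q0))
    (by rintro p rfl; exact ⟨hq1 rfl, by rw [mem_preimage, hq0, hG.snd_pair]; exact hyZ⟩)
  have hC2s := hG.sp_comp _ hG.mor_snd C1 Z C2 hC1s hZ hC2
  have hdim : G.dim C2 ≤ G.dim Z := by
    have h1 := hG.dim_le_add (G.snd : G.Pt (G.prod B (G.prod Y A)) → _) hG.mor_snd C2 hC2.1 0 ?_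
    · have h2 : closure (G.snd '' C2) ⊆ Z := by
        refine closure_minimal ?_ hZcl
        rintro z ⟨p, hp, rfl⟩
        exact (hC2.2.1 hp).2
      have h3 := hG.dim_mono _ _ (isSub_image hG hG.mor_snd hC2.1)
        (hG.ws_isSub _ (hG.sp_ws _ hZ)) h2
      omega
    · intro z R hR hRz
      -- the image of `R` in `B × Y` is contained in a finite fibre of `D`
      have h1 : closure (u '' R) ⊆ D ∩ G.snd ⁻¹' {G.fst z} := by
        refine closure_minimal ?_ (hDcl.inter
          ((isSub_point hG _).1.preimage (hG.mor_continuous _ hG.mor_snd)))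
        rintro p ⟨r, hr, rfl⟩
        refine ⟨(hC1.2.1 ((hC2.2.1 (hRz hr).1).1)).2, ?_⟩
        have h3 : G.snd r = z := (hRz hr).2
        simp [hu, hG.snd_pair, h3]
      have h2 := hfin (G.fst z) (closure (u '' R)) (isSub_image hG hum hR) h1
      have h4 := hG.dim_le_add u hum R hR 0 ?_
      · omega
      · intro c R' hR' hRc
        -- a fibre of `R` over a point of `B × Y` is a point
        have h5 : R' ⊆ {G.pair (G.fst c) z} := by
          intro r hr
          have h6 : G.snd r = z := (hRz ((hRc hr).1)).2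
          have h7 : u r = c := (hRc hr).2
          have h8 : G.fst r = G.fst c := by rw [← h7]; simp [hu, hG.fst_pair]
          rw [mem_singleton_iff, ← hG.pair_eta r, h6, h8]
        have h9 := hG.dim_mono _ _ hR' (isSub_point hG _) h5
        rw [hG.dim_point] at h9
        exact h9
  refine ⟨w '' C2, hG.sp_image w hwm C2 hC2s, ⟨q0, hq2 rfl, hwq⟩, ?_⟩
  have h1 := dim_image_ws_le hG hwm (hG.sp_ws _ hC2s)
  omega

theorem dim_prod_le (hG : IsGeometry G) (A T : G.Obj) :
    G.dim (univ : Set (G.Pt (G.prod A T))) ≤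
      G.dim (univ : Set (G.Pt A)) + G.dim (univ : Set (G.Pt T)) := by
  have h1 := hG.dim_le_add (G.fst : G.Pt (G.prod A T) → G.Pt A) hG.mor_fst univ
    (isSub_univ hG _) (G.dim (univ : Set (G.Pt T))) ?_
  · have h2 := dim_le_univ hG (closure (G.fst '' (univ : Set (G.Pt (G.prod A T)))))
      (isSub_image hG hG.mor_fst (isSub_univ hG _))
    omega
  · intro c R hR hRc
    have h4 := hG.dim_le_add (G.snd : G.Pt (G.prod A T) → G.Pt T) hG.mor_snd R hR 0 ?_
    · have h5 := dim_le_univ hG _ (isSub_image hG hG.mor_snd hR)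
      omega
    · intro z R' hR' hRz
      have h5 : R' ⊆ {G.pair c z} := by
        intro r hr
        have h6 : G.snd r = z := (hRz hr).2
        have h8 : G.fst r = c := (hRc ((hRz hr).1)).2
        rw [mem_singleton_iff, ← hG.pair_eta r, h6, h8]
      have h9 := hG.dim_mono _ _ hR' (isSub_point hG _) h5
      rw [hG.dim_point] at h9
      exact h9

/-- The conjecture for `(a, s)` follows from the conjecture for the algebraic point `a` if no
coordinate of `s` is algebraic. -/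
theorem q1_pair (hG : IsGeometry G) (hDR : DawRen G) {A T : G.Obj} (a : G.Pt A) (s : G.Pt T)
    (halg : IsAlg a) (hgen : HodgeGeneric (G.pair a s)) (hs : NoAlgebraicCoordinate s)
    (hQ : ∀ (X : G.Obj) (V : Set (G.Pt X)), G.OverQbar V → IsIrreducible V → Q1 a V)
    {X : G.Obj} (V : Set (G.Pt X)) : Q1 (G.pair a s) V := by
  have ha := hodgeGeneric_fst hG hgen
  refine q1_of_dense hG _ V fun C hC hCE => ?_
  refine core hG hDR (fun X => Orb a X) ?_ ?_ s hs hC inter_subset_right hCE ?_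
  · intro X B hB hBN
    have h1 : B = closure {x | x ∈ B ∧ x ∈ Orb a X} :=
      Subset.antisymm hBN (closure_minimal (fun x hx => hx.1) hB.1)
    have h2 : G.OverQbar B := by
      rw [h1]
      exact hG.overQbar_points _ fun x hx => isAlg_of_mem_orb hG ha halg hx.2
    obtain ⟨F, hF, hFw, hFe⟩ := hQ X B h2 hB.2
    have h3 : B ⊆ ⋃₀ (hF.toFinset : Set (Set (G.Pt X))) := by
      rw [Finite.coe_toFinset, ← hFe]
      refine hBN.trans (closure_mono ?_)
      rintro x ⟨h4, h5⟩
      exact ⟨h5, h4⟩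
    obtain ⟨W, hW, hBW⟩ := (isIrreducible_iff_sUnion_isClosed.mp hB.2) hF.toFinset
      (fun z hz => (hG.ws_isSub z (hFw z ((Finite.mem_toFinset hF).mp hz))).1) h3
    have hWF : W ∈ F := (Finite.mem_toFinset hF).mp hW
    have h4 : W ⊆ B := by
      have h5 : W ⊆ closure (Orb a X ∩ B) := by rw [hFe]; exact subset_sUnion_of_mem hWF
      exact h5.trans (closure_minimal inter_subset_right hB.1)
    rw [Subset.antisymm hBW h4]
    exact hFw W hWF
  · intro B Y D hD hfin b y hby hy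
    exact orb_coordinate hG a B Y D hD hfin b y hby hy
  · rintro x ⟨⟨Z, hZ, hxZ, hZd⟩, -⟩
    -- rearrange the factors
    set r : G.Pt (G.prod X (G.prod A T)) → G.Pt (G.prod (G.prod X T) A) :=
      fun q => G.pair (G.pair (G.fst q) (G.snd (G.snd q))) (G.fst (G.snd q)) with hr
    have hrm : G.IsMor r := hG.mor_pair _ _ (hG.mor_pair _ _ hG.mor_fst
      (hG.mor_comp _ _ hG.mor_snd hG.mor_snd)) (hG.mor_comp _ _ hG.mor_snd hG.mor_fst)
    have hrq : r (G.pair x (G.pair a s)) = G.pair (G.pair x s) a := by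
      simp [hr, hG.fst_pair, hG.snd_pair]
    set Z1 := r '' Z with hZ1
    have hZ1s : G.Special Z1 := hG.sp_image r hrm Z hZ
    have hZ1m : G.pair (G.pair x s) a ∈ Z1 := ⟨_, hxZ, hrq⟩
    have hZ1d : G.dim Z1 ≤ G.dim (univ : Set (G.Pt A)) + G.dim (univ : Set (G.Pt T)) := by
      have h1 : G.dim Z1 ≤ G.dim Z := dim_image_ws_le hG hrm (hG.sp_ws _ hZ)
      have h2 := dim_prod_le hG A T
      omega
    have hP : IsIrreducible (qcl ({G.pair (G.pair x s) a} : Set (G.Pt (G.prod (G.prod X T) A)))) :=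
      (isSub_qcl hG isIrreducible_singleton).2
    have hPZ : qcl ({G.pair (G.pair x s) a} : Set (G.Pt (G.prod (G.prod X T) A))) ⊆
        Z1 ∩ G.snd ⁻¹' {a} := by
      refine subset_inter (qcl_subset (hG.sp_overQbar _ hZ1s) (by rintro y rfl; exact hZ1m)) ?_
      refine qcl_subset (hG.overQbar_preimage _ hG.mor_snd _ halg) ?_
      rintro y rfl
      exact hG.snd_pair _ _
    obtain ⟨C1, hC1, hPC⟩ := exists_comp hG
      ((hG.ws_isSub _ (hG.sp_ws _ hZ1s)).1.inter ((isSub_point hG a).1.preimage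
        (hG.mor_continuous _ hG.mor_snd))) hP hPZ
    have hC1w : G.WeaklySpecial C1 :=
      hG.ws_comp _ hG.mor_snd Z1 {a} C1 (hG.sp_ws _ hZ1s) (hG.ws_point a) hC1
    have hC1d := hG.ws_fiber _ hG.mor_snd Z1 (hG.sp_ws _ hZ1s) a C1 hC1
    rw [snd_image_univ hG ha hZ1s hZ1m] at hC1d
    refine ⟨G.fst '' C1, hG.ws_image _ hG.mor_fst C1 hC1w, ?_, ?_, ?_⟩
    · have h1 : G.OverQbar (closure (G.fst '' (qcl ({G.pair (G.pair x s) a} :
          Set (G.Pt (G.prod (G.prod X T) A)))))) :=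
        hG.overQbar_image _ hG.mor_fst _ (overQbar_qcl hG _)
      have h2 : qcl {G.pair x s} ⊆ closure (G.fst '' (qcl ({G.pair (G.pair x s) a} :
          Set (G.Pt (G.prod (G.prod X T) A))))) := by
        refine qcl_subset h1 ?_
        rintro y rfl
        exact subset_closure ⟨_, subset_qcl _ rfl, hG.fst_pair _ _⟩
      exact h2.trans (closure_minimal (image_mono hPC) (closed_image hG hG.mor_fst hC1w))
    · have h1 := dim_image_ws_le hG hG.mor_fst hC1w
      omega
    · obtain ⟨p, hp, hpo⟩ := hG.orb_point a ha Z1 hZ1s C1 hC1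
      exact ⟨G.fst p, ⟨p, hp, rfl⟩, hpo⟩

/-- If every weakly special subvariety through the non-algebraic point `p` is the point or everything
(this is the case for Hodge generic points if the adjoint group is `ℚ`-simple) then no coordinate of
`p` is algebraic. -/
theorem noAlg_of_simple (hG : IsGeometry G) {P : G.Obj} (p : G.Pt P) (hp : ¬ IsAlg p)
    (hsimple : ∀ D : Set (G.Pt P), G.WeaklySpecial D → p ∈ D → D = univ ∨ D = {p}) :
    NoAlgebraicCoordinate p := by
  intro D hD hpD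
  have h1 : p ∈ D := hpD (subset_qcl _ rfl)
  rcases hsimple D hD h1 with h | h
  · exact h
  · exfalso
    apply hp
    have h2 : ({p} : Set (G.Pt P)) = qcl {p} :=
      Subset.antisymm (subset_qcl _) (by rw [h] at hpD; exact hpD)
    change G.OverQbar ({p} : Set (G.Pt P))
    rw [h2]
    exact overQbar_qcl hG _

end Pool.Agent.K4H23.UI
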